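import Pool.Agent.Q161.ESN.Stm1

/-!
# Project ESN (helper161): job BX (the number of the vectors in a box)
-/

set_option autoImplicit false

namespace Pool.Agent.Q150.ESN.BX

open Finset Pool.Agent.Q161.ESN
open Pool.Agent.Q51.EL (pr)

section frac

variable {ι : Type} [Fintype ι] [DecidableEq ι] {n : ι → ℕ}

/-- a lower bound for the densities -/
lemma frac_ge {s : Sy n} {A c κ : ℝ} (h : Ok s A c κ) {l : ℕ} (hl : l.Prime) (hB : ¬ l ∣ s.B)
    (S : Finset ι) (z : Vc n) (hz : ∀ i, i ∉ S → rd n l z i ∈ s.U l i) :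
    1 - (Fintype.card ι : ℝ) * A / l ≤ frac n s.Om S l z := by
  classical
  have : NeZero l := ⟨hl.ne_zero⟩
  have hl0 : (0 : ℝ) < l := by exact_mod_cast hl.pos
  have hA := h.A1
  obtain ⟨F, hF⟩ : ∃ F : Finset (Vm n l), F = Fintype.piFinset
      (fun i => if i ∈ S then (univ : Finset (Fin (n i) → ZMod l)) else {rd n l z i}) := ⟨_, rfl⟩
  obtain ⟨Bd, hBd⟩ : ∃ Bd : ι → Finset (Vm n l), Bd = fun i0 => Fintype.piFinset
      (fun i => if i = i0 then (univ : Finset (Fin (n i) → ZMod l)).filter (fun y => y ∉ s.U l i)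
        else if i ∈ S then (univ : Finset (Fin (n i) → ZMod l)) else {rd n l z i}) := ⟨_, rfl⟩
  obtain ⟨E, hE⟩ : ∃ E : Finset (Vm n l), E = univ.filter
      (fun y => y ∈ s.Om l ∧ ∀ i, i ∉ S → y i = rd n l z i) := ⟨_, rfl⟩
  have hcu : ∀ i, ((univ : Finset (Fin (n i) → ZMod l)).card) = l ^ n i := by
    intro i
    rw [card_univ, Fintype.card_fun, ZMod.card, Fintype.card_fin]
  have hFc : F.card = l ^ (∑ i ∈ S, n i) := by
    rw [hF, Fintype.card_piFinset, ← prod_pow_eq_pow_sum]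
    rw [← prod_subset (subset_univ S)]
    · refine prod_congr rfl fun i hi => ?_
      rw [if_pos hi, hcu]
    · intro i _ hi
      rw [if_neg hi, card_singleton]
  have hBc : ∀ i0 ∈ S, ((Bd i0).card : ℝ) * l ≤ A * (l : ℝ) ^ (∑ i ∈ S, n i) := by
    intro i0 hi0
    have h1 : (Bd i0).card = ((univ : Finset (Fin (n i0) → ZMod l)).filter (fun y => y ∉ s.U l i0)).card *
        l ^ (∑ i ∈ S.erase i0, n i) := by
      rw [hBd, Fintype.card_piFinset, ← mul_prod_erase univ _ (mem_univ i0)]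
      rw [if_pos rfl]
      congr 1
      rw [← prod_pow_eq_pow_sum]
      rw [← prod_subset (s₁ := S.erase i0) (s₂ := univ.erase i0)]
      · refine prod_congr rfl fun i hi => ?_
        rw [if_neg (ne_of_mem_erase hi), if_pos (mem_of_mem_erase hi), hcu]
      · exact erase_subset_erase _ (subset_univ S)
      · intro i hi hi'
        have hne := ne_of_mem_erase hi
        have hni : i ∉ S := fun hS => hi' (mem_erase.2 ⟨hne, hS⟩)
        rw [if_neg hne, if_neg hni, card_singleton]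
    have h2 : ((univ : Finset (Fin (n i0) → ZMod l)).filter (fun y => y ∉ s.U l i0)).card =
        (s.U l i0)ᶜ.ncard := by
      rw [← Set.ncard_coe_finset]
      congr 1
      ext y
      simp
    have h3 := h.cU l hl hB i0
    rw [h1, h2]
    have h4 : ∑ i ∈ S, n i = n i0 + ∑ i ∈ S.erase i0, n i := (add_sum_erase S n hi0).symm
    rw [h4, pow_add]
    push_cast
    have h5 : (0 : ℝ) ≤ (l : ℝ) ^ (∑ i ∈ S.erase i0, n i) := by positivity
    calc (((s.U l i0)ᶜ.ncard : ℕ) : ℝ) * (l : ℝ) ^ (∑ i ∈ S.erase i0, n i) * l =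
          ((((s.U l i0)ᶜ.ncard : ℕ) : ℝ) * l) * (l : ℝ) ^ (∑ i ∈ S.erase i0, n i) := by ring
      _ ≤ (A * (l : ℝ) ^ n i0) * (l : ℝ) ^ (∑ i ∈ S.erase i0, n i) := mul_le_mul_of_nonneg_right h3 h5
      _ = _ := by ring
  have hsub : F ⊆ E ∪ S.biUnion Bd := by
    intro y hy
    rw [hF, Fintype.mem_piFinset] at hy
    have hy1 : ∀ i, i ∉ S → y i = rd n l z i := by
      intro i hi
      have := hy i
      rw [if_neg hi, mem_singleton] at this
      exact this
    by_cases hU : ∀ i, y i ∈ s.U l i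
    · refine mem_union_left _ ?_
      rw [hE, mem_filter]
      exact ⟨mem_univ _, h.unit l hl hB y hU, hy1⟩
    · push Not at hU
      obtain ⟨i0, hi0⟩ := hU
      have hi0S : i0 ∈ S := by
        by_contra hcon
        rw [hy1 i0 hcon] at hi0
        exact hi0 (hz i0 hcon)
      refine mem_union_right _ (mem_biUnion.2 ⟨i0, hi0S, ?_⟩)
      rw [hBd, Fintype.mem_piFinset]
      intro i
      by_cases hi : i = i0
      · subst hi
        rw [if_pos rfl, mem_filter]
        exact ⟨mem_univ _, hi0⟩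
      · rw [if_neg hi]
        exact hy i
  have hcard : (F.card : ℝ) ≤ E.card + ∑ i ∈ S, ((Bd i).card : ℝ) := by
    have h1 := (card_le_card hsub).trans ((card_union_le _ _).trans (Nat.add_le_add_left card_biUnion_le _))
    exact_mod_cast h1
  have hsum : (∑ i ∈ S, ((Bd i).card : ℝ)) * l ≤ (Fintype.card ι : ℝ) * (A * (l : ℝ) ^ (∑ i ∈ S, n i)) := by
    rw [sum_mul]
    refine (sum_le_sum hBc).trans ?_
    rw [sum_const, nsmul_eq_mul]
    refine mul_le_mul_of_nonneg_right ?_ (by positivity)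
    exact_mod_cast card_le_univ S
  have hEn : {y : Vm n l | y ∈ s.Om l ∧ ∀ i, i ∉ S → y i = rd n l z i}.ncard = E.card := by
    rw [← Set.ncard_coe_finset]
    congr 1
    ext y
    rw [hE]
    simp
  unfold frac
  rw [hEn]
  have hlp : (0 : ℝ) < (l : ℝ) ^ (∑ i ∈ S, n i) := by positivity
  rw [le_div_iff₀ hlp]
  have hFr : (F.card : ℝ) = (l : ℝ) ^ (∑ i ∈ S, n i) := by
    rw [hFc]
    push_cast
    rfl
  rw [hFr] at hcard
  have h6 : (∑ i ∈ S, ((Bd i).card : ℝ)) ≤ (Fintype.card ι : ℝ) * A / l * (l : ℝ) ^ (∑ i ∈ S, n i) := by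
    have h7 : (∑ i ∈ S, ((Bd i).card : ℝ)) ≤ (Fintype.card ι : ℝ) * (A * (l : ℝ) ^ (∑ i ∈ S, n i)) / l := by
      rw [le_div_iff₀ hl0]
      exact hsum
    refine h7.trans (le_of_eq ?_)
    ring
  linarith

end frac

lemma Phi_pos (k : ℕ) (b : ℝ) (v : ℕ → ℝ) (hv : ∀ j, 0 < v j) (J : ℕ) : 0 < Phi k b v J := by
  induction J with
  | zero =>
    unfold Phi
    exact Real.rpow_pos_of_pos (hv 0) _
  | succ J ih =>
    have h1 : Phi k b v (J + 1) = Phi k b v J * (v J / v (J + 1)) ^ (k - J - 2) *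
      ((v J / v (J + 1)) ^ b + (v J) ^ (-b)) := rfl
    rw [h1]
    have h2 := hv J
    have h3 := hv (J + 1)
    have h4 : 0 < (v J) ^ (-b) := Real.rpow_pos_of_pos h2 _
    positivity

lemma Phi_step (k : ℕ) (b : ℝ) (hb : 0 ≤ b) (hb1 : b ≤ 1) (D : ℝ) (hD : 1 ≤ D) (v : ℕ → ℝ)
    (hv : ∀ j, 0 < v j) (i : ℕ) (hi : v (i + 1) ≤ D * v i) :
    Phi k b v i ≤ D ^ (k + 1) * Phi k b v (i + 1) := by
  have h1 : Phi k b v (i + 1) = Phi k b v i * (v i / v (i + 1)) ^ (k - i - 2) *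
    ((v i / v (i + 1)) ^ b + (v i) ^ (-b)) := rfl
  have hvi := hv i
  have hvi1 := hv (i + 1)
  have hD0 : 0 < D := by linarith
  have hP := Phi_pos k b v hv i
  have hr : 1 / D ≤ v i / v (i + 1) := by
    rw [div_le_div_iff₀ hD0 hvi1]
    linarith
  have hr1 : 1 / D ≤ 1 := by
    rw [div_le_one hD0]
    exact hD
  have hDi : 0 < 1 / D := by positivity
  have h2 : (1 / D) ^ k ≤ (v i / v (i + 1)) ^ (k - i - 2) := by
    calc (1 / D) ^ k ≤ (1 / D) ^ (k - i - 2) := pow_le_pow_of_le_one hDi.le hr1 (by omega)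
      _ ≤ _ := pow_le_pow_left₀ hDi.le hr _
  have h3 : 1 / D ≤ (v i / v (i + 1)) ^ b + (v i) ^ (-b) := by
    have h4 : 0 < (v i) ^ (-b) := Real.rpow_pos_of_pos hvi _
    have h5 : (1 / D) ^ (1 : ℝ) ≤ (1 / D) ^ b := Real.rpow_le_rpow_of_exponent_ge hDi hr1 hb1
    have h6 : (1 / D) ^ b ≤ (v i / v (i + 1)) ^ b := Real.rpow_le_rpow hDi.le hr hb
    rw [Real.rpow_one] at h5
    linarith
  have h7 : (1 / D) ^ (k + 1) * Phi k b v i ≤ Phi k b v (i + 1) := by
    rw [h1, pow_succ]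
    calc (1 / D) ^ k * (1 / D) * Phi k b v i = Phi k b v i * (1 / D) ^ k * (1 / D) := by ring
      _ ≤ Phi k b v i * (v i / v (i + 1)) ^ (k - i - 2) * ((v i / v (i + 1)) ^ b + (v i) ^ (-b)) := by
          refine mul_le_mul (mul_le_mul_of_nonneg_left h2 hP.le) h3 hDi.le (by positivity)
  have h8 : D ^ (k + 1) * ((1 / D) ^ (k + 1) * Phi k b v i) = Phi k b v i := by
    rw [← mul_assoc, ← mul_pow, mul_one_div_cancel hD0.ne', one_pow, one_mul]
  rw [← h8]
  exact mul_le_mul_of_nonneg_left h7 (by positivity)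

lemma Phi_low (k : ℕ) (b : ℝ) (hb : 0 ≤ b) (hb1 : b ≤ 1) (D : ℝ) (hD : 1 ≤ D) (v : ℕ → ℝ)
    (hv : ∀ j, 0 < v j) (j m : ℕ) (hrat : ∀ i, j ≤ i → i < j + m → v (i + 1) ≤ D * v i) :
    Phi k b v j ≤ (D ^ (k + 1)) ^ m * Phi k b v (j + m) := by
  induction m with
  | zero => simp
  | succ m ih =>
    have h1 := ih fun i h2 h3 => hrat i h2 (by omega)
    have h2 := Phi_step k b hb hb1 D hD v hv (j + m) (hrat (j + m) (by omega) (by omega))
    have hD0 : 0 < D := by linarith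
    calc Phi k b v j ≤ (D ^ (k + 1)) ^ m * Phi k b v (j + m) := h1
      _ ≤ (D ^ (k + 1)) ^ m * (D ^ (k + 1) * Phi k b v (j + m + 1)) :=
          mul_le_mul_of_nonneg_left h2 (by positivity)
      _ = (D ^ (k + 1)) ^ (m + 1) * Phi k b v (j + (m + 1)) := by
          rw [pow_succ (D ^ (k + 1)) m, mul_assoc, ← add_assoc j m 1]

lemma one_le_vs {ι : Type} {k : ℕ} (e : ι ≃ Fin k) (H : ι → ℝ) (hH : ∀ i, 1 ≤ H i) (j : ℕ) :
    1 ≤ vs e H j := by
  unfold vs
  by_cases h : j < k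
  · rw [dif_pos h]
    unfold vv
    have := Real.log_nonneg (hH (e.symm ⟨j, h⟩))
    linarith
  · rw [dif_neg h]

lemma box_finite {ι : Type} [Fintype ι] [DecidableEq ι] {n : ι → ℕ} (H : ι → ℝ) :
    {x : Vc n | ∀ i j, |(x i j : ℝ)| ≤ H i}.Finite := by
  classical
  have h1 : {x : Vc n | ∀ i j, |(x i j : ℝ)| ≤ H i} ⊆
      Set.pi Set.univ (fun i => Set.pi Set.univ (fun _ : Fin (n i) => Set.Icc (-⌊H i⌋) ⌊H i⌋)) := by
    intro x hx i _ j _
    have h2 := hx i j
    have h3 : (|x i j| : ℤ) ≤ ⌊H i⌋ := by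
      rw [Int.le_floor]
      push_cast
      exact h2
    exact abs_le.1 h3
  refine Set.Finite.subset ?_ h1
  exact Set.Finite.pi fun i => Set.Finite.pi fun _ => Set.finite_Icc _ _

lemma log_prod_le {ι : Type} [Fintype ι] [DecidableEq ι] (n : ι → ℕ) (U : Finset ι) (f H : ι → ℝ) (A L : ℝ)
    (hA : 1 ≤ A) (hf0 : ∀ i ∈ U, 0 < f i) (hf : ∀ i ∈ U, f i ≤ A * H i ^ n i) (hH : ∀ i ∈ U, 1 ≤ H i)
    (hL0 : 0 ≤ L) (hL : ∀ i ∈ U, Real.log (H i) ≤ L) :
    Real.log (∏ i ∈ U, f i) ≤ Fintype.card ι * Real.log A + (∑ i, n i : ℕ) * L := by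
  rw [Real.log_prod fun i hi => (hf0 i hi).ne']
  have hlA : 0 ≤ Real.log A := Real.log_nonneg hA
  have h1 : ∀ i ∈ U, Real.log (f i) ≤ Real.log A + n i * L := by
    intro i hi
    have h2 := Real.log_le_log (hf0 i hi) (hf i hi)
    have h3 := hH i hi
    rw [Real.log_mul (by linarith) (by positivity), Real.log_pow] at h2
    have h4 : (n i : ℝ) * Real.log (H i) ≤ n i * L := mul_le_mul_of_nonneg_left (hL i hi) (by positivity)
    linarith
  refine (sum_le_sum h1).trans ?_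
  rw [sum_add_distrib, sum_const, nsmul_eq_mul, ← sum_mul]
  refine add_le_add ?_ ?_
  · refine mul_le_mul_of_nonneg_right ?_ hlA
    exact_mod_cast card_le_univ U
  · refine mul_le_mul_of_nonneg_right ?_ hL0
    have : ∑ i ∈ U, n i ≤ ∑ i, n i := sum_le_sum_of_subset (subset_univ U)
    exact_mod_cast this

theorem bx : S_CH → S_GS → S_BX := by
  classical
  intro hCH hGS ι _ _ _ n s A c κ hOk hEx
  have hA := hOk.A1
  have hlA : 0 ≤ Real.log A := Real.log_nonneg hA
  obtain ⟨A1, b, C, hA1, hb0, hb1, hC, hch⟩ := hCH ι n s A c κ hOk hEx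
  obtain ⟨CG, hCG, hgs⟩ := hGS ι n ((Fintype.card ι : ℝ) * A) hOk.n1 (by positivity)
  obtain ⟨Nn, hNn⟩ : ∃ Nn : ℕ, Nn = ∑ i, n i := ⟨_, rfl⟩
  obtain ⟨A2, hA2⟩ : ∃ A2 : ℝ, A2 = max A1 (1 + 2 * (Fintype.card ι * Real.log A) + 2 * Nn) := ⟨_, rfl⟩
  have hA21 : A1 ≤ A2 := hA2 ▸ le_max_left _ _
  have hA22 : 1 + 2 * (Fintype.card ι * Real.log A) + 2 * Nn ≤ A2 := hA2 ▸ le_max_right _ _
  have hA2one : 1 ≤ A2 := hA1.trans hA21
  refine ⟨b, CG * 3 ^ Nn * C * (A2 ^ (Fintype.card ι + 1)) ^ (Fintype.card ι), hb0, hb1, by positivity, ?_⟩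
  intro T hT k e H hH hmono
  have hk : k = Fintype.card ι := by
    rw [← Fintype.card_fin k]
    exact (Fintype.card_congr e).symm
  have hk1 : 1 ≤ k := by
    rw [hk]
    exact Fintype.card_pos
  obtain ⟨v, hv⟩ : ∃ v : ℕ → ℝ, v = vs e H := ⟨_, rfl⟩
  have hv1 : ∀ j, 1 ≤ v j := fun j => hv ▸ one_le_vs e H hH j
  have hv0 : ∀ j, 0 < v j := fun j => lt_of_lt_of_le one_pos (hv1 j)
  -- the index
  obtain ⟨j, hjdef⟩ : ∃ j : ℕ, j = Nat.findGreatest (fun j => j = 0 ∨ A2 * v (j - 1) ≤ v j) (k - 1) := ⟨_, rfl⟩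
  have hjk : j < k := by
    have : j ≤ k - 1 := hjdef ▸ Nat.findGreatest_le _
    omega
  have hjP : j = 0 ∨ A2 * v (j - 1) ≤ v j := by
    have := Nat.findGreatest_spec (P := fun j => j = 0 ∨ A2 * v (j - 1) ≤ v j) (m := 0) (n := k - 1)
      (Nat.zero_le _) (Or.inl rfl)
    rw [← hjdef] at this
    exact this
  have hjmax : ∀ i, j ≤ i → i < j + (k - 1 - j) → v (i + 1) ≤ A2 * v i := by
    intro i hi1 hi2
    have h1 := Nat.findGreatest_is_greatest (P := fun j => j = 0 ∨ A2 * v (j - 1) ≤ v j) (n := k - 1)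
      (k := i + 1) (by rw [← hjdef]; omega) (by omega)
    simp only [Nat.add_sub_cancel] at h1
    push Not at h1
    exact h1.2.le
  have hfin : {x ∈ T | ∀ i j, |(x i j : ℝ)| ≤ H i}.Finite :=
    (box_finite H).subset fun x hx => hx.2
  refine ⟨hfin, ?_⟩
  rw [Set.ncard_eq_toFinset_card _ hfin]
  obtain ⟨X, hX⟩ : ∃ X : Finset (Vc n), X = hfin.toFinset := ⟨_, rfl⟩
  rw [← hX]
  have hXm : ∀ x ∈ X, x ∈ T ∧ ∀ i j, |(x i j : ℝ)| ≤ H i := by
    intro x hx
    rw [hX, Set.Finite.mem_toFinset] at hx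
    exact hx
  obtain ⟨S, hS⟩ : ∃ S : Finset ι, S = univ.filter (fun i => j ≤ (e i : ℕ)) := ⟨_, rfl⟩
  have hSm : ∀ i, i ∈ S ↔ j ≤ (e i : ℕ) := by
    intro i
    rw [hS, mem_filter]
    simp
  obtain ⟨Y, hY⟩ : ∃ Y : ℝ, Y = H (e.symm ⟨j, hjk⟩) := ⟨_, rfl⟩
  have hY1 : 1 ≤ Y := hY ▸ hH _
  have hY0 : 0 < Y := by linarith
  obtain ⟨hd, hhd⟩ : ∃ hd : Vc n → Vc n, hd = fun x i => if j ≤ (e i : ℕ) then 0 else x i := ⟨_, rfl⟩
  have hhd1 : ∀ x i, i ∈ S → hd x i = 0 := by
    intro x i hi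
    rw [hhd]
    simp only [if_pos ((hSm i).1 hi)]
  have hhd2 : ∀ x i, i ∉ S → hd x i = x i := by
    intro x i hi
    rw [hSm] at hi
    rw [hhd]
    simp only [if_neg hi]
  have hSne : S.Nonempty := ⟨e.symm ⟨j, hjk⟩, by rw [hSm]; simp⟩
  -- the fibres
  have hfib : ∀ z ∈ X.image hd, (((X.filter (fun x => hd x = z)).card : ℕ) : ℝ) ≤
      CG * 3 ^ Nn * (∏ i ∈ S, H i ^ n i) * Wt s S Y z := by
    intro z hz
    obtain ⟨x0, hx0, hx0z⟩ := mem_image.1 hz
    obtain ⟨hx0T, hx0H⟩ := hXm x0 hx0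
    have hzi : ∀ i, i ∉ S → z i = x0 i := fun i hi => by rw [← hx0z, hhd2 x0 i hi]
    obtain ⟨M, hM⟩ : ∃ M : ℕ, M = ∏ i ∈ univ \ S, s.Nm i (z i) := ⟨_, rfl⟩
    have hNm0 : ∀ i, i ∉ S → s.Nm i (z i) ≠ 0 := by
      intro i hi
      rw [hzi i hi]
      exact hOk.n0 i _ ((hT x0 hx0T).2 i)
    have hM0 : M ≠ 0 := by
      rw [hM, prod_ne_zero_iff]
      intro i hi
      exact hNm0 i (mem_sdiff.1 hi).2
    have hMY : (M : ℝ) ^ 2 ≤ Y := by
      rcases Nat.eq_zero_or_pos j with hj0 | hj0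
      · have h1 : univ \ S = ∅ := by
          rw [sdiff_eq_empty_iff_subset]
          intro i _
          rw [hSm, hj0]
          exact Nat.zero_le _
        rw [hM, h1, prod_empty]
        push_cast
        linarith
      · have hjv : A2 * v (j - 1) ≤ v j := hjP.resolve_left (by omega)
        have hj1k : j - 1 < k := by omega
        obtain ⟨L, hL⟩ : ∃ L : ℝ, L = Real.log (H (e.symm ⟨j - 1, hj1k⟩)) := ⟨_, rfl⟩
        have hL0 : 0 ≤ L := hL ▸ Real.log_nonneg (hH _)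
        have e1 : v (j - 1) = 1 + L := by
          rw [hv, hL]
          unfold vs vv
          rw [dif_pos hj1k]
        have e2 : v j = 1 + Real.log Y := by
          rw [hv, hY]
          unfold vs vv
          rw [dif_pos hjk]
        rw [e1, e2] at hjv
        have h2 : Real.log (M : ℝ) ≤ Fintype.card ι * Real.log A + (∑ i, n i : ℕ) * L := by
          rw [hM]
          push_cast
          have h3 := log_prod_le n (univ \ S) (fun i => (s.Nm i (z i) : ℝ)) H A L hA ?_ ?_ (fun i _ => hH i) hL0 ?_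
          · push_cast at h3
            exact h3
          · intro i hi
            have := hNm0 i (mem_sdiff.1 hi).2
            exact_mod_cast Nat.pos_of_ne_zero this
          · intro i hi
            rw [hzi i (mem_sdiff.1 hi).2]
            exact hOk.nb i _ (H i) (hH i) (hx0H i)
          · intro i hi
            have h4 := (mem_sdiff.1 hi).2
            rw [hSm] at h4
            rw [hL]
            refine Real.log_le_log (lt_of_lt_of_le one_pos (hH i)) (hmono _ _ ?_)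
            rw [Equiv.apply_symm_apply, Fin.le_def]
            simp only
            omega
        rw [← hNn] at h2
        have h5 : 2 * Real.log (M : ℝ) ≤ Real.log Y := by
          have h6 : (1 + 2 * (Fintype.card ι * Real.log A) + 2 * Nn) * (1 + L) ≤ A2 * (1 + L) :=
            mul_le_mul_of_nonneg_right hA22 (by linarith)
          have h7 : 0 ≤ (Fintype.card ι : ℝ) * Real.log A * L := by positivity
          have h8 : 0 ≤ (Nn : ℝ) := by positivity
          nlinarith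
        have hMp : (0 : ℝ) < M := by exact_mod_cast Nat.pos_of_ne_zero hM0
        rw [← Real.log_le_log_iff (by positivity) hY0, Real.log_pow]
        push_cast
        exact h5
    obtain ⟨Pb, hPb⟩ : ∃ Pb : Finset ℕ, Pb = (PP s.B Y).filter (fun l => l ∣ M) := ⟨_, rfl⟩
    obtain ⟨P, hP⟩ : ∃ P : Finset ℕ, P = (PP s.B Y).filter (fun l => ¬ l ∣ M) := ⟨_, rfl⟩
    have hPPm : ∀ l ∈ PP s.B Y, l.Prime ∧ ¬ l ∣ s.B ∧ (l : ℝ) ^ 4 ≤ Y := by
      intro l hl
      unfold PP at hl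
      rw [mem_filter] at hl
      refine ⟨?_, hl.2⟩
      have := hl.1
      unfold Pool.Agent.Q51.EL.pr at this
      exact (mem_filter.1 this).2
    have hun : P ∪ Pb = PP s.B Y := by
      rw [hP, hPb, union_comm]
      exact filter_union_filter_not_eq _ _
    have hdisj : Disjoint P Pb := by
      rw [hP, hPb]
      exact (disjoint_filter_filter_not _ _ _).symm
    have hprodM : ∏ l ∈ Pb, l ≤ M := by
      refine Nat.le_of_dvd (Nat.pos_of_ne_zero hM0) (prod_primes_dvd M ?_ ?_)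
      · intro l hl
        rw [hPb] at hl
        exact Nat.Prime.prime (hPPm l (mem_filter.1 hl).1).1
      · intro l hl
        rw [hPb] at hl
        exact (mem_filter.1 hl).2
    have hgs' := hgs s.Om S z (fun i _ => -((⌊H i⌋₊ : ℕ) : ℤ)) (fun i => 2 * ⌊H i⌋₊ + 1) Y P Pb
      (X.filter (fun x => hd x = z)) hSne hY1 (by
        intro i hi
        have h1 : Y ≤ H i := by
          rw [hY]
          refine hmono _ _ ?_
          rw [Equiv.apply_symm_apply, Fin.le_def]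
          exact (hSm i).1 hi
        have h2 := Nat.lt_floor_add_one (H i)
        have h3 : (0 : ℝ) ≤ ⌊H i⌋₊ := by positivity
        push_cast
        linarith) hdisj (by
        intro l hl
        rw [hun] at hl
        exact ⟨(hPPm l hl).1, (hPPm l hl).2.2⟩) (by
        have h1 : ((∏ l ∈ Pb, l : ℕ) : ℝ) ≤ M := by exact_mod_cast hprodM
        exact (pow_le_pow_left₀ (by positivity) h1 2).trans hMY) (by
        intro l hl
        rw [hP, mem_filter] at hl
        obtain ⟨hl1, hl2⟩ := hl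
        refine frac_ge hOk (hPPm l hl1).1 (hPPm l hl1).2.1 S z ?_
        intro i hi
        by_contra hcon
        apply hl2
        rw [hM]
        exact (hOk.nm l (hPPm l hl1).1 (hPPm l hl1).2.1 i (z i) hcon).trans
          (dvd_prod_of_mem _ (mem_sdiff.2 ⟨mem_univ i, hi⟩))) (by
        intro x hx
        rw [mem_filter] at hx
        obtain ⟨hx1, hx2⟩ := hx
        obtain ⟨hxT, hxH⟩ := hXm x hx1
        refine ⟨⟨?_, ?_⟩, ?_⟩
        · intro i _ j'
          have h1 : |x i j'| ≤ ((⌊H i⌋₊ : ℕ) : ℤ) := by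
            have h2 : (x i j').natAbs ≤ ⌊H i⌋₊ := by
              refine Nat.le_floor ?_
              rw [Nat.cast_natAbs, Int.cast_abs]
              exact hxH i j'
            rw [Int.abs_eq_natAbs]
            exact_mod_cast h2
          have h2 := abs_le.1 h1
          constructor
          · exact h2.1
          · push_cast
            omega
        · intro i hi
          rw [← hx2, hhd2 x i hi]
        · intro l hl
          rw [hun] at hl
          exact (hT x hxT).1 l (hPPm l hl).1 (hPPm l hl).2.1)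
    rw [hun] at hgs'
    have hW : ∏ l ∈ PP s.B Y, frac n s.Om S l z = Wt s S Y z := rfl
    rw [hW] at hgs'
    have hW0 : 0 ≤ Wt s S Y z := by
      unfold Wt
      refine prod_nonneg fun l _ => ?_
      unfold frac
      positivity
    have hpr : ∏ i ∈ S, ((2 * ⌊H i⌋₊ + 1 : ℕ) : ℝ) ^ n i ≤ 3 ^ Nn * ∏ i ∈ S, H i ^ n i := by
      calc ∏ i ∈ S, ((2 * ⌊H i⌋₊ + 1 : ℕ) : ℝ) ^ n i ≤ ∏ i ∈ S, (3 * H i) ^ n i := by
            refine prod_le_prod (fun i _ => by positivity) fun i _ => ?_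
            refine pow_le_pow_left₀ (by positivity) ?_ _
            have h1 := Nat.floor_le (le_trans zero_le_one (hH i))
            have h2 := hH i
            push_cast
            linarith
        _ = (∏ i ∈ S, (3 : ℝ) ^ n i) * ∏ i ∈ S, H i ^ n i := by
            rw [← prod_mul_distrib]
            exact prod_congr rfl fun i _ => mul_pow _ _ _
        _ ≤ 3 ^ Nn * ∏ i ∈ S, H i ^ n i := by
            refine mul_le_mul_of_nonneg_right ?_ (prod_nonneg fun i _ => pow_nonneg (le_trans zero_le_one (hH i)) _)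
            rw [prod_pow_eq_pow_sum, hNn]
            exact pow_le_pow_right₀ (by norm_num) (sum_le_sum_of_subset (subset_univ S))
    calc (((X.filter (fun x => hd x = z)).card : ℕ) : ℝ) ≤
          CG * (∏ i ∈ S, ((2 * ⌊H i⌋₊ + 1 : ℕ) : ℝ) ^ n i) * Wt s S Y z := hgs'
      _ ≤ CG * (3 ^ Nn * ∏ i ∈ S, H i ^ n i) * Wt s S Y z :=
          mul_le_mul_of_nonneg_right (mul_le_mul_of_nonneg_left hpr hCG.le) hW0
      _ = _ := by ring
  -- the sum over the heads
  have hjA1 : j = 0 ∨ A1 * vs e H (j - 1) ≤ vs e H j := by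
    rcases hjP with h | h
    · exact Or.inl h
    · right
      rw [← hv]
      exact (mul_le_mul_of_nonneg_right hA21 (hv0 _).le).trans h
  have hchain := hch k e H hH hmono j hjk hjA1 (X.image hd) (by
    intro z hz
    obtain ⟨x, hx, rfl⟩ := mem_image.1 hz
    obtain ⟨hxT, hxH⟩ := hXm x hx
    constructor
    · intro i hi
      have h1 : hd x i = x i := hhd2 x i (by rw [hSm]; omega)
      rw [h1]
      exact ⟨(hT x hxT).2 i, hxH i⟩
    · intro i hi
      exact hhd1 x i ((hSm i).2 hi))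
  rw [← hS, ← hY, ← hv] at hchain
  have hprodsplit : (∏ i ∈ S, H i ^ n i) * ∏ i ∈ univ.filter (fun i => (e i : ℕ) < j), H i ^ n i =
      ∏ i, H i ^ n i := by
    rw [hS, ← prod_filter_mul_prod_filter_not univ (fun i => j ≤ (e i : ℕ))]
    congr 1
    refine prod_congr ?_ fun _ _ => rfl
    ext i
    simp
  have hcard : ((X.card : ℕ) : ℝ) = ∑ z ∈ X.image hd, (((X.filter (fun x => hd x = z)).card : ℕ) : ℝ) := by
    rw [card_eq_sum_card_image hd X]
    push_cast
    rfl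
  have hprS0 : 0 ≤ ∏ i ∈ S, H i ^ n i := prod_nonneg fun i _ => pow_nonneg (le_trans zero_le_one (hH i)) _
  have hpr0 : 0 ≤ ∏ i, H i ^ n i := prod_nonneg fun i _ => pow_nonneg (le_trans zero_le_one (hH i)) _
  have hlow := Phi_low k b hb0.le hb1 A2 hA2one v hv0 j (k - 1 - j) hjmax
  have hjj : j + (k - 1 - j) = k - 1 := by omega
  rw [hjj] at hlow
  have hPk := Phi_pos k b v hv0 (k - 1)
  have hPj := Phi_pos k b v hv0 j
  have hpw : (A2 ^ (k + 1)) ^ (k - 1 - j) ≤ (A2 ^ (Fintype.card ι + 1)) ^ (Fintype.card ι) := by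
    rw [← hk]
    exact pow_le_pow_right₀ (one_le_pow₀ hA2one) (by omega)
  have hlow2 : Phi k b v j ≤ (A2 ^ (Fintype.card ι + 1)) ^ (Fintype.card ι) * Phi k b v (k - 1) :=
    hlow.trans (mul_le_mul_of_nonneg_right hpw hPk.le)
  rw [hcard, ← hv]
  calc ∑ z ∈ X.image hd, (((X.filter (fun x => hd x = z)).card : ℕ) : ℝ) ≤
        ∑ z ∈ X.image hd, CG * 3 ^ Nn * (∏ i ∈ S, H i ^ n i) * Wt s S Y z := sum_le_sum hfib
    _ = CG * 3 ^ Nn * (∏ i ∈ S, H i ^ n i) * ∑ z ∈ X.image hd, Wt s S Y z := by rw [mul_sum]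
    _ ≤ CG * 3 ^ Nn * (∏ i ∈ S, H i ^ n i) *
        (C * (∏ i ∈ univ.filter (fun i => (e i : ℕ) < j), H i ^ n i) * Phi k b v j) := by
        refine mul_le_mul_of_nonneg_left hchain (by positivity)
    _ = CG * 3 ^ Nn * C * ((∏ i ∈ S, H i ^ n i) * ∏ i ∈ univ.filter (fun i => (e i : ℕ) < j), H i ^ n i) *
        Phi k b v j := by ring
    _ = CG * 3 ^ Nn * C * (∏ i, H i ^ n i) * Phi k b v j := by rw [hprodsplit]
    _ ≤ CG * 3 ^ Nn * C * (∏ i, H i ^ n i) *
        ((A2 ^ (Fintype.card ι + 1)) ^ (Fintype.card ι) * Phi k b v (k - 1)) := by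
        refine mul_le_mul_of_nonneg_left hlow2 (by positivity)
    _ = _ := by ring

end Pool.Agent.Q150.ESN.BX
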