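import Pool.Agent.Q150.ESN.ChA

/-!
# Project ESN (helper161), JOB CH: the chain of the steps

Owner helper182 (project ESM); copied by helper150 for project ESN.
-/

set_option autoImplicit false

namespace Pool.Agent.Q150.ESN

open Finset
open Pool.Agent.Q51.EL (pr)
open Pool.Agent.Q161.ESN

section

variable {ι : Type} [Fintype ι] [DecidableEq ι] {n : ι → ℕ}

/-- the variables with index `< j` -/
def cut {k : ℕ} (e : ι ≃ Fin k) (j : ℕ) (x : Vc n) : Vc n := fun i => if (e i : ℕ) < j then x i else 0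

omit [Fintype ι] [DecidableEq ι] in
theorem vs_eq {k : ℕ} (e : ι ≃ Fin k) (H : ι → ℝ) {j : ℕ} (hj : j < k) :
    vs e H j = vv (H (e.symm ⟨j, hj⟩)) := dif_pos hj

omit [Fintype ι] [DecidableEq ι] in
theorem one_le_vs {k : ℕ} (e : ι ≃ Fin k) (H : ι → ℝ) (hH : ∀ i, 1 ≤ H i) (j : ℕ) (hj : j < k) :
    1 ≤ vs e H j := by
  rw [vs_eq e H hj, vv]
  have := Real.log_nonneg (hH (e.symm ⟨j, hj⟩))
  linarith

omit [Fintype ι] [DecidableEq ι] in
theorem vs_mono {k : ℕ} (e : ι ≃ Fin k) (H : ι → ℝ) (hH : ∀ i, 1 ≤ H i)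
    (hm : ∀ i i', e i ≤ e i' → H i ≤ H i') (i i' : ℕ) (hi : i ≤ i') (hi' : i' < k) :
    vs e H i ≤ vs e H i' := by
  rw [vs_eq e H hi', vs_eq e H (lt_of_le_of_lt hi hi'), vv, vv]
  have h1 := hH (e.symm ⟨i, lt_of_le_of_lt hi hi'⟩)
  have h2 : H (e.symm ⟨i, lt_of_le_of_lt hi hi'⟩) ≤ H (e.symm ⟨i', hi'⟩) := by
    apply hm
    simp only [Equiv.apply_symm_apply]
    exact hi
  have := Real.log_le_log (by linarith) h2
  linarith

omit [DecidableEq ι] in
theorem card_ge {k : ℕ} (e : ι ≃ Fin k) (j : ℕ) :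
    (univ.filter (fun i => j ≤ (e i : ℕ))).card = k - j := by
  have h : (univ.filter (fun i => j ≤ (e i : ℕ))).card = (Finset.Ico j k).card := by
    apply Finset.card_bij (fun i _ => (e i : ℕ))
    · intro i hi
      simp only [Finset.mem_filter, Finset.mem_univ, true_and] at hi
      simp [hi]
    · intro a _ b _ hab
      exact e.injective (Fin.ext hab)
    · intro b hb
      rw [Finset.mem_Ico] at hb
      refine ⟨e.symm ⟨b, hb.2⟩, ?_, ?_⟩
      · simp [hb.1]
      · simp
  rw [h, Nat.card_Ico]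

/-- the number of the values of the first variables -/
theorem card_box {k : ℕ} (e : ι ≃ Fin k) (H : ι → ℝ) (hH : ∀ i, 1 ≤ H i) (j : ℕ) (Z : Finset (Vc n))
    (hZ : ∀ z ∈ Z, (∀ i, (e i : ℕ) < j → ∀ j', |(z i j' : ℝ)| ≤ H i) ∧
      ∀ i, j ≤ (e i : ℕ) → z i = 0) :
    (Z.card : ℝ) ≤ 3 ^ (∑ i, n i) * ∏ i ∈ univ.filter (fun i => (e i : ℕ) < j), H i ^ n i := by
  classical
  have hsub : Z ⊆ Fintype.piFinset (fun i => if (e i : ℕ) < j then
      Fintype.piFinset (fun _ : Fin (n i) => Icc (-⌊H i⌋) ⌊H i⌋) else {0}) := by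
    intro z hz
    obtain ⟨h1, h2⟩ := hZ z hz
    rw [Fintype.mem_piFinset]
    intro i
    split_ifs with h
    · rw [Fintype.mem_piFinset]
      intro j'
      have := abs_le.1 (h1 i h j')
      rw [Finset.mem_Icc]
      constructor
      · rw [neg_le, Int.le_floor]
        push_cast
        linarith
      · rw [Int.le_floor]
        exact this.2
    · rw [Finset.mem_singleton]
      exact h2 i (not_lt.1 h)
  have hcard := Finset.card_le_card hsub
  have h1 : (Z.card : ℝ) ≤ ∏ i, if (e i : ℕ) < j then (3 * H i) ^ n i else 1 := by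
    refine le_trans (Nat.cast_le.2 hcard) ?_
    rw [Fintype.card_piFinset]
    push_cast
    apply Finset.prod_le_prod
    · intro i _; positivity
    · intro i _
      split_ifs with h
      · rw [Fintype.card_piFinset]
        simp only [Int.card_Icc, sub_neg_eq_add, Finset.prod_const, Finset.card_univ,
          Fintype.card_fin, Nat.cast_pow]
        have hfl : (0 : ℤ) ≤ ⌊H i⌋ := Int.floor_nonneg.2 (by have := hH i; linarith)
        have e1 : (((⌊H i⌋ + 1 + ⌊H i⌋).toNat : ℕ) : ℝ) = 2 * (⌊H i⌋ : ℝ) + 1 := by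
          have : (((⌊H i⌋ + 1 + ⌊H i⌋).toNat : ℕ) : ℤ) = ⌊H i⌋ + 1 + ⌊H i⌋ :=
            Int.toNat_of_nonneg (by omega)
          have h3 : ((((⌊H i⌋ + 1 + ⌊H i⌋).toNat : ℕ) : ℤ) : ℝ) = ((⌊H i⌋ + 1 + ⌊H i⌋ : ℤ) : ℝ) := by
            rw [this]
          push_cast at h3
          rw [h3]
          ring
        rw [e1]
        have h4 := Int.floor_le (H i)
        have h5 := hH i
        have h6 : (0 : ℝ) ≤ (⌊H i⌋ : ℝ) := by exact_mod_cast hfl
        gcongr
        linarith
      · simp
  refine h1.trans ?_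
  rw [← Finset.prod_filter]
  have h2 : ∏ i ∈ univ.filter (fun i => (e i : ℕ) < j), (3 * H i) ^ n i =
      (∏ i ∈ univ.filter (fun i => (e i : ℕ) < j), (3 : ℝ) ^ n i) *
        ∏ i ∈ univ.filter (fun i => (e i : ℕ) < j), H i ^ n i := by
    rw [← Finset.prod_mul_distrib]
    apply Finset.prod_congr rfl
    intro i _
    rw [mul_pow]
  rw [h2]
  have h3 : 0 ≤ ∏ i ∈ univ.filter (fun i => (e i : ℕ) < j), H i ^ n i := by
    apply Finset.prod_nonneg
    intro i _
    have := hH i
    positivity
  apply mul_le_mul_of_nonneg_right _ h3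
  rw [Finset.prod_pow_eq_pow_sum]
  apply pow_le_pow_right₀ (by norm_num)
  exact Finset.sum_le_sum_of_subset (Finset.filter_subset _ _)

/-- the product of the norms of the first variables -/
theorem norm_le {s : Sy n} {A c κ : ℝ} (hok : Ok s A c κ) {k : ℕ} (e : ι ≃ Fin k) (H : ι → ℝ)
    (hH : ∀ i, 1 ≤ H i) (hm : ∀ i i', e i ≤ e i' → H i ≤ H i') (j : ℕ) (hj : j < k)
    (hcond : j = 0 ∨ (1 + 2 * (k : ℝ) * Real.log A + 2 * ((∑ i, n i : ℕ) : ℝ)) * vs e H (j - 1) ≤
      vs e H j)
    (z : Vc n) (hz : ∀ i, (e i : ℕ) < j → ∀ j', |(z i j' : ℝ)| ≤ H i) :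
    ((∏ i ∈ univ \ univ.filter (fun i => j ≤ (e i : ℕ)), s.Nm i (z i) : ℕ) : ℝ) ^ 2 ≤
      H (e.symm ⟨j, hj⟩) := by
  have hset : univ \ univ.filter (fun i => j ≤ (e i : ℕ)) = univ.filter (fun i => (e i : ℕ) < j) := by
    ext i; simp
  rw [hset]
  rcases hcond with h0 | hcond
  · subst h0
    simp only [not_lt_zero, Finset.filter_false, Finset.prod_empty, Nat.cast_one, one_pow]
    exact hH _
  · rcases Nat.eq_zero_or_pos j with h0 | hj0
    · subst h0
      simp only [not_lt_zero, Finset.filter_false, Finset.prod_empty, Nat.cast_one, one_pow]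
      exact hH _
    have hj1 : j - 1 < k := by omega
    set M := H (e.symm ⟨j - 1, hj1⟩) with hM
    have hM1 : 1 ≤ M := hH _
    have hA0 : 0 < A := lt_of_lt_of_le one_pos hok.A1
    have hlA : 0 ≤ Real.log A := Real.log_nonneg hok.A1
    have hlM : 0 ≤ Real.log M := Real.log_nonneg hM1
    have hfac : ∀ i ∈ univ.filter (fun i => (e i : ℕ) < j), (s.Nm i (z i) : ℝ) ≤ A * M ^ n i := by
      intro i hi
      rw [Finset.mem_filter] at hi
      have h1 := hok.nb i (z i) (H i) (hH i) (hz i hi.2)
      have h2 : H i ≤ M := by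
        apply hm
        simp only [Equiv.apply_symm_apply]
        rw [Fin.le_def]
        simp only
        omega
      have h3 := hH i
      refine h1.trans ?_
      gcongr
    have hprod : ((∏ i ∈ univ.filter (fun i => (e i : ℕ) < j), s.Nm i (z i) : ℕ) : ℝ) ≤
        A ^ k * M ^ (∑ i, n i) := by
      push_cast
      refine (Finset.prod_le_prod (fun i _ => Nat.cast_nonneg _) hfac).trans ?_
      rw [Finset.prod_mul_distrib, Finset.prod_const, Finset.prod_pow_eq_pow_sum]
      have hc : (univ.filter (fun i => (e i : ℕ) < j)).card ≤ k := by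
        refine (Finset.card_le_univ _).trans ?_
        rw [Fintype.card_congr e, Fintype.card_fin]
      have hs : ∑ i ∈ univ.filter (fun i => (e i : ℕ) < j), n i ≤ ∑ i, n i :=
        Finset.sum_le_sum_of_subset (Finset.filter_subset _ _)
      have := hok.A1
      gcongr
    have hsq : ((∏ i ∈ univ.filter (fun i => (e i : ℕ) < j), s.Nm i (z i) : ℕ) : ℝ) ^ 2 ≤
        (A ^ k * M ^ (∑ i, n i)) ^ 2 := by gcongr
    refine hsq.trans ?_
    rw [vs_eq e H hj1, vs_eq e H hj, vv, vv, ← hM] at hcond
    have hHj := hH (e.symm ⟨j, hj⟩)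
    have hpos : 0 < (A ^ k * M ^ (∑ i, n i)) ^ 2 := by positivity
    rw [← Real.log_le_log_iff hpos (by linarith)]
    rw [Real.log_pow, Real.log_mul (by positivity) (by positivity), Real.log_pow, Real.log_pow]
    push_cast at hcond ⊢
    have hk0 : (0 : ℝ) ≤ (k : ℝ) := Nat.cast_nonneg _
    have hN0 : (0 : ℝ) ≤ ∑ i, (n i : ℝ) := Finset.sum_nonneg (fun i _ => Nat.cast_nonneg _)
    nlinarith [mul_nonneg (mul_nonneg hk0 hlA) hlM, mul_nonneg hk0 hlA]

end

theorem ch (hST : S_ST) (hRB : S_RB) : S_CH := by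
  intro ι _ _ n s A c κ hok hex
  have hlA : 0 ≤ Real.log A := Real.log_nonneg hok.A1
  obtain ⟨k0, hk0⟩ : ∃ k0, k0 = Fintype.card ι := ⟨_, rfl⟩
  obtain ⟨A1, hA1⟩ : ∃ A1 : ℝ, A1 = 1 + 2 * (k0 : ℝ) * Real.log A + 2 * ((∑ i, n i : ℕ) : ℝ) :=
    ⟨_, rfl⟩
  have hA11 : 1 ≤ A1 := by
    rw [hA1]
    have : (0 : ℝ) ≤ ((∑ i, n i : ℕ) : ℝ) := Nat.cast_nonneg _
    have : 0 ≤ (k0 : ℝ) * Real.log A := by positivity
    linarith
  obtain ⟨AA, hAA⟩ : ∃ AA : ℝ, AA = A1 ^ k0 := ⟨_, rfl⟩
  have hAA1 : 1 ≤ AA := by rw [hAA]; exact one_le_pow₀ hA11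
  obtain ⟨b, C1, hb0, hb1, hC1, hstep⟩ := hST ι n s A c κ hok hex AA (3 * k0)
  obtain ⟨C2, hC2, hrb⟩ := hRB ι n s A c κ hok
  have key : ∀ m : ℕ, ∃ C : ℝ, 0 < C ∧ ∀ (k : ℕ) (e : ι ≃ Fin k) (H : ι → ℝ), (∀ i, 1 ≤ H i) →
      (∀ i i', e i ≤ e i' → H i ≤ H i') →
      ∀ (j : ℕ) (hj : j < k), j ≤ m → (j = 0 ∨ A1 * vs e H (j - 1) ≤ vs e H j) →
      ∀ X : Finset (Vc n),
      (∀ x ∈ X, (∀ i, (e i : ℕ) < j → x i ∈ s.Nc i ∧ ∀ j', |(x i j' : ℝ)| ≤ H i) ∧
        ∀ i, j ≤ (e i : ℕ) → x i = 0) →
      ∑ x ∈ X, Wt s (univ.filter (fun i => j ≤ (e i : ℕ))) (H (e.symm ⟨j, hj⟩)) x ≤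
        C * (∏ i ∈ univ.filter (fun i => (e i : ℕ) < j), H i ^ n i) * Phi k b (vs e H) j := by
    intro m
    induction m with
    | zero =>
      refine ⟨C2, hC2, ?_⟩
      intro k e H hH hm j hj hj0 _ X hX
      obtain rfl : j = 0 := by omega
      have hk : k = k0 := by rw [hk0, Fintype.card_congr e, Fintype.card_fin]
      have hS : univ.filter (fun i => 0 ≤ (e i : ℕ)) = (univ : Finset ι) := by simp
      have hS2 : univ.filter (fun i => (e i : ℕ) < 0) = (∅ : Finset ι) := by simp
      rw [hS, hS2, Finset.prod_empty, mul_one]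
      have hsub : X ⊆ {0} := by
        intro x hx
        rw [Finset.mem_singleton]
        funext i
        exact (hX x hx).2 i (Nat.zero_le _)
      have hH0 := hH (e.symm ⟨0, hj⟩)
      have h1 := (hrb univ 0 1 (H (e.symm ⟨0, hj⟩)) ⟨e.symm ⟨0, hj⟩, Finset.mem_univ _⟩ le_rfl hH0
        (fun i hi => absurd (Finset.mem_univ i) hi)).1
      have hPP : PP s.B 1 = ∅ := by
        rw [Finset.eq_empty_iff_forall_notMem]
        intro l hl
        unfold PP pr at hl
        rw [Finset.mem_filter, Finset.mem_filter, Finset.mem_Icc] at hl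
        have h2 := hl.1.2.two_le
        have h3 := hl.1.1.2
        simp at h3
        omega
      rw [hPP, Finset.sdiff_empty] at h1
      have hvv1 : vv 1 = 1 := by simp [vv]
      have hPhi : Phi k b (vs e H) 0 = (vs e H 0) ^ (-((k : ℝ) - 1)) := rfl
      have hv0 := one_le_vs e H hH 0 hj
      have h4 : (vv 1 / vv (H (e.symm ⟨0, hj⟩))) ^ ((univ : Finset ι).card - 1) =
          Phi k b (vs e H) 0 := by
        rw [hPhi, hvv1, ← vs_eq e H hj, Finset.card_univ, ← hk0, ← hk, one_div, inv_pow,
          Real.rpow_neg (by linarith)]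
        congr 1
        rw [← Real.rpow_natCast]
        congr 1
        rw [Nat.cast_sub (by omega)]
        simp
      rw [h4] at h1
      have hW : ∀ x ∈ X, Wt s univ (H (e.symm ⟨0, hj⟩)) x ≤ C2 * Phi k b (vs e H) 0 := by
        intro x hx
        have := Finset.mem_singleton.1 (hsub hx)
        rw [this]
        exact h1
      have hPpos := Phi_pos (b := b) (one_le_vs e H hH) 0 hj
      refine (Finset.sum_le_card_nsmul _ _ _ hW).trans ?_
      have hc : X.card ≤ 1 := (Finset.card_le_card hsub).trans (by simp)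
      rw [nsmul_eq_mul]
      have hc' : (X.card : ℝ) ≤ 1 := by exact_mod_cast hc
      have : 0 ≤ C2 * Phi k b (vs e H) 0 := by positivity
      nlinarith
    | succ m ih =>
      obtain ⟨C, hC, hind⟩ := ih
      refine ⟨C + C1 * (C * AA ^ ((k0 + 1) * k0 + 1) + 3 ^ (∑ i, n i) * AA ^ (2 * k0)), by positivity,
        ?_⟩
      intro k e H hH hm j hj hjm hcond X hX
      have hk : k = k0 := by rw [hk0, Fintype.card_congr e, Fintype.card_fin]
      have h1v := one_le_vs e H hH
      have hmv := vs_mono e H hH hm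
      have hPpos := Phi_pos (b := b) h1v j hj
      have hprodpos : 0 ≤ ∏ i ∈ univ.filter (fun i => (e i : ℕ) < j), H i ^ n i := by
        apply Finset.prod_nonneg
        intro i _
        have := hH i
        positivity
      rcases Nat.lt_or_ge m j with hlt | hle
      swap
      · refine (hind k e H hH hm j hj hle hcond X hX).trans ?_
        gcongr
        have : 0 ≤ C1 * (C * AA ^ ((k0 + 1) * k0 + 1) + 3 ^ (∑ i, n i) * AA ^ (2 * k0)) := by
          positivity
        linarith
      obtain rfl : j = m + 1 := by omega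
      -- the index `j'`
      set P : ℕ → Prop := fun i => i = 0 ∨ A1 * vs e H (i - 1) ≤ vs e H i with hP
      classical
      obtain ⟨j', hj'⟩ : ∃ j', j' = Nat.findGreatest P m := ⟨_, rfl⟩
      have hj'm : j' ≤ m := by rw [hj']; exact Nat.findGreatest_le m
      have hPj' : P j' := by
        rw [hj']
        exact Nat.findGreatest_spec (P := P) (Nat.zero_le m) (Or.inl rfl)
      have hgr : ∀ i, j' < i → i ≤ m → vs e H i ≤ A1 * vs e H (i - 1) := by
        intro i h1 h2
        have := Nat.findGreatest_is_greatest (P := P) (hj' ▸ h1) h2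
        rw [hP] at this
        simp only [not_or, not_le] at this
        exact this.2.le
      have hdd : ∀ d, j' + d ≤ m → vs e H (j' + d) ≤ A1 ^ d * vs e H j' := by
        intro d
        induction d with
        | zero => intro _; simp
        | succ d ihd =>
          intro hd
          have h1 := ihd (by omega)
          have h2 := hgr (j' + (d + 1)) (by omega) hd
          have e1 : j' + (d + 1) - 1 = j' + d := by omega
          rw [e1] at h2
          refine h2.trans ?_
          rw [pow_succ]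
          calc A1 * vs e H (j' + d) ≤ A1 * (A1 ^ d * vs e H j') := by gcongr
            _ = _ := by ring
      have hj'k : j' < k := by omega
      have hvj' : 1 ≤ vs e H j' := h1v j' hj'k
      have hle : ∀ i, j' ≤ i → i ≤ m → vs e H i ≤ AA * vs e H j' := by
        intro i h1 h2
        have h3 := hdd (i - j') (by omega)
        have e1 : j' + (i - j') = i := by omega
        rw [e1] at h3
        refine h3.trans ?_
        rw [hAA]
        gcongr
        omega
      have f1 := F1 (b := b) h1v hmv hb0 hb1 hAA1 (j' := j') (j := m) hj hj'm hle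
      have f2 := F2 (b := b) h1v hmv hb1 hAA1 (j' := j') (j := m) hj hj'm hle
      set S := univ.filter (fun i => j' ≤ (e i : ℕ)) with hS
      set S' := univ.filter (fun i => m + 1 ≤ (e i : ℕ)) with hS'
      have hmemS : ∀ i, i ∈ S ↔ j' ≤ (e i : ℕ) := by intro i; simp [hS]
      have hmemS' : ∀ i, i ∈ S' ↔ m + 1 ≤ (e i : ℕ) := by intro i; simp [hS']
      have hSS : S' ⊆ S := by
        intro i hi
        rw [hmemS'] at hi
        rw [hmemS]
        omega
      have hmemD : ∀ i, i ∈ S \ S' ↔ j' ≤ (e i : ℕ) ∧ (e i : ℕ) < m + 1 := by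
        intro i
        rw [Finset.mem_sdiff, hmemS, hmemS']
        omega
      obtain ⟨Y, hY⟩ : ∃ Y, Y = H (e.symm ⟨j', hj'k⟩) := ⟨_, rfl⟩
      obtain ⟨Y1, hY1⟩ : ∃ Y, Y = H (e.symm ⟨m, by omega⟩) := ⟨_, rfl⟩
      obtain ⟨Y2, hY2⟩ : ∃ Y, Y = H (e.symm ⟨m + 1, hj⟩) := ⟨_, rfl⟩
      have hvY : vv Y = vs e H j' := by rw [hY, vs_eq e H hj'k]
      have hvY1 : vv Y1 = vs e H m := by rw [hY1, vs_eq e H (by omega)]
      have hvY2 : vv Y2 = vs e H (m + 1) := by rw [hY2, vs_eq e H hj]
      have hYH : ∀ i, j' ≤ (e i : ℕ) → Y ≤ H i := by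
        intro i hi
        rw [hY]
        apply hm
        simp only [Equiv.apply_symm_apply]
        rw [Fin.le_def]
        exact hi
      have hHY : ∀ i, (e i : ℕ) ≤ j' → H i ≤ Y := by
        intro i hi
        rw [hY]
        apply hm
        simp only [Equiv.apply_symm_apply]
        rw [Fin.le_def]
        exact hi
      have hHY1 : ∀ i, (e i : ℕ) ≤ m → H i ≤ Y1 := by
        intro i hi
        rw [hY1]
        apply hm
        simp only [Equiv.apply_symm_apply]
        rw [Fin.le_def]
        exact hi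
      have hY1Y2 : Y1 ≤ Y2 := by
        rw [hY1, hY2]
        apply hm
        simp only [Equiv.apply_symm_apply]
        rw [Fin.le_def]
        simp
      have hcard : S'.card - 1 = k - m - 2 := by
        rw [hS', card_ge]
        omega
      -- the bound for one value of the first variables
      have hone : ∀ z ∈ X.image (cut e j'), ∑ x ∈ X.filter (fun x => cut e j' x = z), Wt s S' Y2 x ≤
          C1 * (∏ i ∈ S \ S', H i ^ n i) * (vs e H j' / vs e H (m + 1)) ^ (k - m - 2) *
          (((vs e H j' / vs e H (m + 1)) ^ b + vs e H j' ^ (-b)) * Wt s S Y z +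
            vs e H j' ^ (-(3 * (k : ℝ)))) := by
        intro z hz
        obtain ⟨x0, hx0, rfl⟩ := Finset.mem_image.1 hz
        have hz1 : ∀ i, (e i : ℕ) < j' → cut e j' x0 i = x0 i := by
          intro i hi
          simp [cut, hi]
        have hz2 : ∀ i, j' ≤ (e i : ℕ) → cut e j' x0 i = 0 := by
          intro i hi
          simp [cut, not_lt.2 hi]
        have hx0' := hX x0 hx0
        have h := hstep S S' H Y Y1 Y2 (cut e j' x0) (X.filter (fun x => cut e j' x = cut e j' x0))
          hSS ⟨e.symm ⟨m + 1, hj⟩, by rw [hmemS']; simp⟩ (by rw [hY]; exact hH _)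
          (by rw [hY1]; exact hYH _ (by simpa using hj'm)) hY1Y2
          (by rw [hvY, hvY1]; exact hle m hj'm le_rfl)
          (fun i hi => by
            rw [hmemD] at hi
            exact ⟨hYH i hi.1, hHY1 i (by omega)⟩)
          ⟨e.symm ⟨m, by omega⟩, by rw [hmemD]; simpa using hj'm, hY1.symm⟩
          (by
            rw [hY]
            apply norm_le hok e H hH hm j' hj'k
            · rcases hPj' with h | h
              · exact Or.inl h
              · right
                rw [hA1, ← hk] at h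
                exact h
            · intro i hi j''
              rw [hz1 i hi]
              exact (hx0'.1 i (by omega)).2 j'')
          (fun i hi => by
            rw [hmemS, not_le] at hi
            rw [hz1 i hi]
            have h5 := hx0'.1 i (by omega)
            exact ⟨fun j'' => (h5.2 j'').trans (hHY i hi.le), hok.n0 i _ h5.1⟩)
          (fun x hx => by
            rw [Finset.mem_filter] at hx
            have hx' := hX x hx.1
            refine ⟨fun i hi => ?_, fun i hi => ?_⟩
            · rw [hmemD] at hi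
              exact hx'.1 i hi.2
            · rw [hmemD, not_and_or, not_le, not_lt] at hi
              rcases hi with hi | hi
              · rw [← hx.2]
                simp [cut, hi]
              · rw [hx'.2 i hi, hz2 i (by omega)])
        rw [hcard, hvY, hvY2, ← hk] at h
        exact h
      -- the sum
      have hsum : ∑ x ∈ X, Wt s S' Y2 x = ∑ z ∈ X.image (cut e j'),
          ∑ x ∈ X.filter (fun x => cut e j' x = z), Wt s S' Y2 x := by
        rw [Finset.sum_fiberwise_of_maps_to]
        intro x hx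
        exact Finset.mem_image_of_mem _ hx
      have hZ : ∀ z ∈ X.image (cut e j'), (∀ i, (e i : ℕ) < j' → z i ∈ s.Nc i ∧
          ∀ j'', |(z i j'' : ℝ)| ≤ H i) ∧ ∀ i, j' ≤ (e i : ℕ) → z i = 0 := by
        intro z hz
        obtain ⟨x0, hx0, rfl⟩ := Finset.mem_image.1 hz
        have hx0' := hX x0 hx0
        constructor
        · intro i hi
          have : cut e j' x0 i = x0 i := by simp [cut, hi]
          rw [this]
          exact hx0'.1 i (by omega)
        · intro i hi
          simp [cut, not_lt.2 hi]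
      have hIH := hind k e H hH hm j' hj'k hj'm hPj' (X.image (cut e j')) hZ
      have hcb := card_box e H hH j' (X.image (cut e j')) (fun z hz =>
        ⟨fun i hi => ((hZ z hz).1 i hi).2, (hZ z hz).2⟩)
      rw [← hS, ← hY] at hIH
      rw [← hY2, hsum]
      have hQP : ∏ i ∈ univ.filter (fun i => (e i : ℕ) < m + 1), H i ^ n i =
          (∏ i ∈ univ.filter (fun i => (e i : ℕ) < j'), H i ^ n i) * ∏ i ∈ S \ S', H i ^ n i := by
        rw [← Finset.prod_union]
        · apply Finset.prod_congr _ (fun _ _ => rfl)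
          ext i
          rw [Finset.mem_union, hmemD, Finset.mem_filter, Finset.mem_filter]
          simp only [Finset.mem_univ, true_and]
          omega
        · rw [Finset.disjoint_left]
          intro i hi hi'
          rw [hmemD] at hi'
          rw [Finset.mem_filter] at hi
          omega
      set Q := ∏ i ∈ univ.filter (fun i => (e i : ℕ) < j'), H i ^ n i with hQ
      set PD := ∏ i ∈ S \ S', H i ^ n i with hPD
      have hQ0 : 0 ≤ Q := by
        apply Finset.prod_nonneg
        intro i _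
        have := hH i
        positivity
      have hPD0 : 0 ≤ PD := by
        apply Finset.prod_nonneg
        intro i _
        have := hH i
        positivity
      set R := (vs e H j' / vs e H (m + 1)) ^ (k - m - 2) with hR
      set F := (vs e H j' / vs e H (m + 1)) ^ b + vs e H j' ^ (-b) with hF
      set G := vs e H j' ^ (-(3 * (k : ℝ))) with hG
      have hvm1 : 1 ≤ vs e H (m + 1) := h1v _ hj
      have hR0 : 0 ≤ R := by positivity
      have hF0 : 0 ≤ F := add_nonneg (Real.rpow_nonneg (by positivity) _)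
        (Real.rpow_nonneg (by positivity) _)
      have hG0 : 0 ≤ G := Real.rpow_nonneg (by positivity) _
      refine (Finset.sum_le_sum hone).trans ?_
      rw [← Finset.mul_sum, Finset.sum_add_distrib, ← Finset.mul_sum, Finset.sum_const,
        nsmul_eq_mul]
      have hPj'pos := Phi_pos (b := b) h1v j' hj'k
      calc C1 * PD * R * (F * ∑ z ∈ X.image (cut e j'), Wt s S Y z +
            ((X.image (cut e j')).card : ℝ) * G)
          ≤ C1 * PD * R * (F * (C * Q * Phi k b (vs e H) j') + (3 ^ (∑ i, n i) * Q) * G) := by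
            gcongr
        _ = C1 * (Q * PD) * (C * (Phi k b (vs e H) j' * R * F) + 3 ^ (∑ i, n i) * (G * R)) := by
            ring
        _ ≤ C1 * (Q * PD) * (C * (AA ^ ((k + 1) * k + 1) * Phi k b (vs e H) (m + 1)) +
              3 ^ (∑ i, n i) * (AA ^ (2 * k) * Phi k b (vs e H) (m + 1))) := by
            gcongr
        _ = (C1 * (C * AA ^ ((k0 + 1) * k0 + 1) + 3 ^ (∑ i, n i) * AA ^ (2 * k0))) * (Q * PD) *
              Phi k b (vs e H) (m + 1) := by
            rw [← hk]
            ring
        _ ≤ (C + C1 * (C * AA ^ ((k0 + 1) * k0 + 1) + 3 ^ (∑ i, n i) * AA ^ (2 * k0))) * (Q * PD) *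
              Phi k b (vs e H) (m + 1) := by
            gcongr
            linarith
        _ = _ := by rw [hQP]
  obtain ⟨C, hC, h⟩ := key k0
  refine ⟨A1, b, C, hA11, hb0, hb1, hC, fun k e H h1 h2 j hj hc X hX => ?_⟩
  have hk : k = k0 := by rw [hk0, Fintype.card_congr e, Fintype.card_fin]
  exact h k e H h1 h2 j hj (by omega) hc X hX

end Pool.Agent.Q150.ESN
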