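import Pool.Agent.Q161.ESN.Stm1

/-!
# Project ESN (helper161), JOB CH, part 1: the real analysis

Owner helper182 (project ESM); copied by helper150 for project ESN.
-/

set_option autoImplicit false

namespace Pool.Agent.Q150.ESN

open Finset
open Pool.Agent.Q161.ESN

/-- the factor in the recursion for `Phi` -/
theorem Phi_succ (k : ℕ) (b : ℝ) (v : ℕ → ℝ) (j : ℕ) :
    Phi k b v (j + 1) = Phi k b v j * (v j / v (j + 1)) ^ (k - j - 2) *
      ((v j / v (j + 1)) ^ b + (v j) ^ (-b)) := rfl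

theorem Phi_pos {k : ℕ} {b : ℝ} {v : ℕ → ℝ} (h1 : ∀ i, i < k → 1 ≤ v i) (j : ℕ) (hj : j < k) :
    0 < Phi k b v j := by
  induction j with
  | zero =>
    have h0 : (0 : ℝ) < v 0 := lt_of_lt_of_le one_pos (h1 0 hj)
    exact Real.rpow_pos_of_pos h0 _
  | succ j ih =>
    have h := ih (by omega)
    have h0 : (0 : ℝ) < v j := lt_of_lt_of_le one_pos (h1 j (by omega))
    have h2 : (0 : ℝ) < v (j + 1) := lt_of_lt_of_le one_pos (h1 (j + 1) hj)
    rw [Phi_succ]
    have h3 : (0 : ℝ) < v j / v (j + 1) := div_pos h0 h2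
    have h4 := Real.rpow_pos_of_pos h3 b
    have h5 := Real.rpow_pos_of_pos h0 (-b)
    positivity

/-- the factors below the diagonal are bounded below -/
theorem Phi_mono {k : ℕ} {b AA : ℝ} {v : ℕ → ℝ} (h1 : ∀ i, i < k → 1 ≤ v i)
    (hmono : ∀ i i', i ≤ i' → i' < k → v i ≤ v i') (hb1 : b ≤ 1) (hA : 1 ≤ AA)
    {j' j : ℕ} (hj : j < k) (hle : ∀ i, j' ≤ i → i ≤ j → v i ≤ AA * v j') :
    ∀ d, j' + d ≤ j → Phi k b v j' ≤ AA ^ ((k + 1) * d) * Phi k b v (j' + d) := by
  intro d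
  induction d with
  | zero => intro _; simp
  | succ d ih =>
    intro hd
    have hP := ih (by omega)
    refine hP.trans ?_
    rw [← add_assoc, Phi_succ]
    set i := j' + d with hi
    have hi1 : i + 1 ≤ j := by omega
    have hvi : 1 ≤ v i := h1 i (by omega)
    have hvi1 : 1 ≤ v (i + 1) := h1 (i + 1) (by omega)
    have hvj : v j' ≤ v i := hmono _ _ (by omega) (by omega)
    have hup : v (i + 1) ≤ AA * v i :=
      (hle (i + 1) (by omega) (by omega)).trans (by gcongr)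
    have hPi := Phi_pos (b := b) h1 i (by omega)
    have hAA : (0 : ℝ) < AA := by linarith
    have hr : AA⁻¹ ≤ v i / v (i + 1) := by
      rw [le_div_iff₀ (by linarith), inv_mul_le_iff₀ hAA]
      exact hup
    have hr0 : 0 ≤ v i / v (i + 1) := by positivity
    have hr1 : v i / v (i + 1) ≤ 1 := by
      rw [div_le_one (by linarith)]
      exact hmono _ _ (by omega) (by omega)
    have hf1 : AA⁻¹ ^ k ≤ (v i / v (i + 1)) ^ (k - i - 2) := by
      have e1 : AA⁻¹ ^ k ≤ (v i / v (i + 1)) ^ k := pow_le_pow_left₀ (by positivity) hr _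
      exact e1.trans (pow_le_pow_of_le_one hr0 hr1 (by omega))
    have hf2 : AA⁻¹ ≤ (v i / v (i + 1)) ^ b + (v i) ^ (-b) := by
      have e1 : v i / v (i + 1) ≤ (v i / v (i + 1)) ^ b := by
        have := Real.rpow_le_rpow_of_exponent_ge (x := v i / v (i + 1)) (by positivity) hr1 hb1
        simpa using this
      have e2 : 0 ≤ (v i) ^ (-b) := Real.rpow_nonneg (by linarith) _
      linarith
    have hprod : AA⁻¹ ^ k * AA⁻¹ ≤ (v i / v (i + 1)) ^ (k - i - 2) *
        ((v i / v (i + 1)) ^ b + (v i) ^ (-b)) := by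
      apply mul_le_mul hf1 hf2 (by positivity) (by positivity)
    have e3 : AA ^ ((k + 1) * (d + 1)) = AA ^ ((k + 1) * d) * (AA ^ k * AA) := by
      rw [mul_add, pow_add, mul_one, pow_succ AA k]
    rw [e3]
    have e4 : (AA ^ k * AA) * (AA⁻¹ ^ k * AA⁻¹) = 1 := by
      rw [inv_pow]
      field_simp
    have hA1 : 0 < AA ^ k * AA := by positivity
    have e5 : 1 ≤ (AA ^ k * AA) * ((v i / v (i + 1)) ^ (k - i - 2) *
        ((v i / v (i + 1)) ^ b + (v i) ^ (-b))) := by
      rw [← e4]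
      gcongr
    have e6 : 0 ≤ AA ^ ((k + 1) * d) * Phi k b v i := by positivity
    calc AA ^ ((k + 1) * d) * Phi k b v i
        = AA ^ ((k + 1) * d) * Phi k b v i * 1 := by ring
      _ ≤ AA ^ ((k + 1) * d) * Phi k b v i * ((AA ^ k * AA) * ((v i / v (i + 1)) ^ (k - i - 2) *
        ((v i / v (i + 1)) ^ b + (v i) ^ (-b)))) := by gcongr
      _ = _ := by ring

/-- the first inequality -/
theorem F1 {k : ℕ} {b AA : ℝ} {v : ℕ → ℝ} (h1 : ∀ i, i < k → 1 ≤ v i)
    (hmono : ∀ i i', i ≤ i' → i' < k → v i ≤ v i') (hb0 : 0 < b) (hb1 : b ≤ 1) (hA : 1 ≤ AA)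
    {j' j : ℕ} (hj : j + 1 < k) (hj' : j' ≤ j) (hle : ∀ i, j' ≤ i → i ≤ j → v i ≤ AA * v j') :
    Phi k b v j' * (v j' / v (j + 1)) ^ (k - j - 2) *
      ((v j' / v (j + 1)) ^ b + (v j') ^ (-b)) ≤ AA ^ ((k + 1) * k + 1) * Phi k b v (j + 1) := by
  have hAA : (0 : ℝ) < AA := by linarith
  have hv' : 1 ≤ v j' := h1 j' (by omega)
  have hvj : 1 ≤ v j := h1 j (by omega)
  have hvj1 : 1 ≤ v (j + 1) := h1 (j + 1) (by omega)
  have hjj : v j' ≤ v j := hmono _ _ hj' (by omega)
  have hPj := Phi_pos (b := b) h1 j (by omega)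
  have hPj' := Phi_pos (b := b) h1 j' (by omega)
  have g1 : Phi k b v j' ≤ AA ^ ((k + 1) * k) * Phi k b v j := by
    have := Phi_mono (k := k) (b := b) h1 hmono hb1 hA (j' := j') (j := j) (by omega) hle
      (j - j') (by omega)
    have e : j' + (j - j') = j := by omega
    rw [e] at this
    refine this.trans ?_
    gcongr
    omega
  have g2 : (v j' / v (j + 1)) ^ (k - j - 2) ≤ (v j / v (j + 1)) ^ (k - j - 2) := by gcongr
  have g3 : (v j' / v (j + 1)) ^ b ≤ (v j / v (j + 1)) ^ b := by gcongr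
  have g4 : (v j') ^ (-b) ≤ AA * (v j) ^ (-b) := by
    have e1 : v j / AA ≤ v j' := by
      rw [div_le_iff₀ hAA, mul_comm]
      exact hle j hj' le_rfl
    have e2 : (v j') ^ (-b) ≤ (v j / AA) ^ (-b) :=
      Real.rpow_le_rpow_of_nonpos (by positivity) e1 (by linarith)
    refine e2.trans ?_
    rw [Real.div_rpow (by linarith) hAA.le, Real.rpow_neg hAA.le, div_inv_eq_mul, mul_comm]
    have e3 : AA ^ b ≤ AA := by
      have := Real.rpow_le_rpow_of_exponent_le hA hb1
      simpa using this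
    have e4 : 0 ≤ (v j) ^ (-b) := Real.rpow_nonneg (by linarith) _
    gcongr
  have g5 : (v j' / v (j + 1)) ^ b + (v j') ^ (-b) ≤ AA * ((v j / v (j + 1)) ^ b + (v j) ^ (-b)) := by
    have e1 : (v j / v (j + 1)) ^ b ≤ AA * (v j / v (j + 1)) ^ b := by
      have : 0 ≤ (v j / v (j + 1)) ^ b := Real.rpow_nonneg (by positivity) _
      nlinarith
    rw [mul_add]
    linarith
  have h0 : 0 ≤ (v j' / v (j + 1)) ^ b + (v j') ^ (-b) :=
    add_nonneg (Real.rpow_nonneg (by positivity) _) (Real.rpow_nonneg (by positivity) _)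
  have h0' : 0 ≤ (v j / v (j + 1)) ^ b + (v j) ^ (-b) :=
    add_nonneg (Real.rpow_nonneg (by positivity) _) (Real.rpow_nonneg (by positivity) _)
  rw [Phi_succ]
  calc Phi k b v j' * (v j' / v (j + 1)) ^ (k - j - 2) *
      ((v j' / v (j + 1)) ^ b + (v j') ^ (-b))
      ≤ (AA ^ ((k + 1) * k) * Phi k b v j) * (v j / v (j + 1)) ^ (k - j - 2) *
        (AA * ((v j / v (j + 1)) ^ b + (v j) ^ (-b))) := by
        apply mul_le_mul _ g5 h0 (by positivity)
        apply mul_le_mul g1 g2 (by positivity) (by positivity)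
    _ = _ := by
        rw [pow_succ]
        ring

/-- a lower bound for `Phi` -/
theorem Phi_low {k : ℕ} {b : ℝ} {v : ℕ → ℝ} (h1 : ∀ i, i < k → 1 ≤ v i)
    (hb1 : b ≤ 1) (j : ℕ) (hj : j < k) :
    1 ≤ Phi k b v j * (∏ i ∈ range j, v i ^ 2) * v j ^ (k - 1 - j) := by
  induction j with
  | zero =>
    have h0 : (0 : ℝ) < v 0 := lt_of_lt_of_le one_pos (h1 0 hj)
    rw [Finset.prod_range_zero, mul_one]
    have e : Phi k b v 0 = (v 0) ^ (-((k : ℝ) - 1)) := rfl
    rw [e]
    have e2 : ((k - 1 - 0 : ℕ) : ℝ) = (k : ℝ) - 1 := by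
      rw [Nat.sub_zero, Nat.cast_sub (by omega)]
      simp
    rw [← Real.rpow_natCast (v 0) (k - 1 - 0), e2, ← Real.rpow_add h0]
    simp
  | succ j ih =>
    have h := ih (by omega)
    have h0 : (0 : ℝ) < v j := lt_of_lt_of_le one_pos (h1 j (by omega))
    have h2 : (0 : ℝ) < v (j + 1) := lt_of_lt_of_le one_pos (h1 (j + 1) hj)
    have hvj : 1 ≤ v j := h1 j (by omega)
    have hP := Phi_pos (b := b) h1 j (by omega)
    rw [Phi_succ, Finset.prod_range_succ]
    have e1 : 1 ≤ ((v j / v (j + 1)) ^ b + (v j) ^ (-b)) * v j := by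
      have a1 : 0 ≤ (v j / v (j + 1)) ^ b := Real.rpow_nonneg (by positivity) _
      have a2 : (v j)⁻¹ ≤ (v j) ^ (-b) := by
        have := Real.rpow_le_rpow_of_exponent_le hvj (show (-1 : ℝ) ≤ -b by linarith)
        rwa [Real.rpow_neg_one] at this
      have a3 : (v j)⁻¹ * v j = 1 := by field_simp
      nlinarith
    have hpr : 0 < ∏ i ∈ range j, v i ^ 2 := by
      apply Finset.prod_pos
      intro i hi
      have : 1 ≤ v i := h1 i (by have := Finset.mem_range.1 hi; omega)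
      positivity
    have e2 : (v j / v (j + 1)) ^ (k - j - 2) * v (j + 1) ^ (k - 1 - (j + 1)) = v j ^ (k - j - 2) := by
      have : k - 1 - (j + 1) = k - j - 2 := by omega
      rw [this, div_pow]
      field_simp
    have e3 : v j ^ (k - 1 - j) = v j ^ (k - j - 2) * v j := by
      rw [← pow_succ]
      congr 1
      omega
    have e4 : Phi k b v j * (∏ i ∈ range j, v i ^ 2) * v j ^ (k - 1 - j) ≤
        Phi k b v j * (∏ i ∈ range j, v i ^ 2) * v j ^ (k - 1 - j) *
          (((v j / v (j + 1)) ^ b + (v j) ^ (-b)) * v j) := by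
      apply le_mul_of_one_le_right _ e1
      positivity
    refine h.trans (e4.trans (le_of_eq ?_))
    rw [e3]
    have e5 : Phi k b v j * (v j / v (j + 1)) ^ (k - j - 2) *
        ((v j / v (j + 1)) ^ b + v j ^ (-b)) * ((∏ i ∈ range j, v i ^ 2) * v j ^ 2) *
        v (j + 1) ^ (k - 1 - (j + 1)) = Phi k b v j * ((v j / v (j + 1)) ^ (k - j - 2) *
          v (j + 1) ^ (k - 1 - (j + 1))) *
        ((v j / v (j + 1)) ^ b + v j ^ (-b)) * ((∏ i ∈ range j, v i ^ 2) * v j ^ 2) := by ring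
    rw [e5, e2]
    ring

/-- the second inequality -/
theorem F2 {k : ℕ} {b AA : ℝ} {v : ℕ → ℝ} (h1 : ∀ i, i < k → 1 ≤ v i)
    (hmono : ∀ i i', i ≤ i' → i' < k → v i ≤ v i') (hb1 : b ≤ 1) (hA : 1 ≤ AA)
    {j' j : ℕ} (hj : j + 1 < k) (hj' : j' ≤ j) (hle : ∀ i, j' ≤ i → i ≤ j → v i ≤ AA * v j') :
    (v j') ^ (-(3 * (k : ℝ))) * (v j' / v (j + 1)) ^ (k - j - 2) ≤
      AA ^ (2 * k) * Phi k b v (j + 1) := by
  have hAA : (0 : ℝ) < AA := by linarith
  have hv' : 1 ≤ v j' := h1 j' (by omega)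
  have hvj : 1 ≤ v j := h1 j (by omega)
  have hvj1 : 1 ≤ v (j + 1) := h1 (j + 1) (by omega)
  have hP := Phi_pos (b := b) h1 (j + 1) (by omega)
  have hlow := Phi_low (b := b) h1 hb1 (j + 1) (by omega)
  have hpr : ∏ i ∈ range (j + 1), v i ^ 2 ≤ (AA * v j') ^ (2 * k) := by
    have a1 : ∏ i ∈ range (j + 1), v i ^ 2 ≤ ∏ i ∈ range (j + 1), (AA * v j') ^ 2 := by
      apply Finset.prod_le_prod
      · intro i _; positivity
      · intro i hi
        have hi' := Finset.mem_range.1 hi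
        have hvi : 1 ≤ v i := h1 i (by omega)
        have : v i ≤ v j := hmono _ _ (by omega) (by omega)
        have := hle j hj' le_rfl
        gcongr
        linarith
    refine a1.trans ?_
    rw [Finset.prod_const, Finset.card_range, ← pow_mul]
    apply pow_le_pow_right₀
    · nlinarith
    · omega
  have h3 : 1 ≤ Phi k b v (j + 1) * (AA * v j') ^ (2 * k) * v (j + 1) ^ (k - j - 2) := by
    have e : k - 1 - (j + 1) = k - j - 2 := by omega
    rw [e] at hlow
    refine hlow.trans ?_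
    gcongr
  have e1 : (v j') ^ (-(3 * (k : ℝ))) = ((v j') ^ (3 * k))⁻¹ := by
    rw [Real.rpow_neg (by linarith)]
    congr 1
    rw [← Real.rpow_natCast]
    congr 1
    push_cast
    ring
  rw [e1, div_pow, inv_mul_eq_div, div_div, div_le_iff₀ (by positivity)]
  have e2 : (v j') ^ (k - j - 2) ≤ (v j') ^ k := pow_le_pow_right₀ hv' (by omega)
  calc (v j') ^ (k - j - 2) ≤ (v j') ^ k * 1 := by rw [mul_one]; exact e2
    _ ≤ (v j') ^ k * (Phi k b v (j + 1) * (AA * v j') ^ (2 * k) * v (j + 1) ^ (k - j - 2)) := by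
        gcongr
    _ = AA ^ (2 * k) * Phi k b v (j + 1) * (v (j + 1) ^ (k - j - 2) * (v j') ^ (3 * k)) := by
        rw [mul_pow, show 3 * k = k + 2 * k by ring, pow_add]
        ring

end Pool.Agent.Q150.ESN
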